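import Pool.Agent.W851.BE.Stm

/-!
# Project BE, part IMG: the image of a point `ζ_{a,t}` is such a point
-/

open Polynomial Topology Filter

namespace Pool.Agent.W377.BE.Img

open Pool.Agent.W95.BK Pool.Agent.W851.BE

universe u

lemma exu (B : Finset ℝ) {t : ℝ} (ht : 0 < t) : ∃ u : ℝ, 0 ≤ u ∧ u < t ∧
    ∀ β ∈ B, ¬ (u < β ∧ β < t) := by
  have h1 : ∀ᶠ u in 𝓝[<] t, ∀ β ∈ B, ¬ (u < β ∧ β < t) := by
    rw [Filter.eventually_all_finset]
    intro β _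
    by_cases hb : β < t
    · filter_upwards [Ioo_mem_nhdsLT hb] with u hu h
      exact absurd h.1 (not_lt.2 hu.1.le)
    · exact Filter.Eventually.of_forall fun u h => hb h.2
  have h2 : ∀ᶠ u in 𝓝[<] t, 0 < u ∧ u < t := Ioo_mem_nhdsLT ht
  obtain ⟨u, h3, h4⟩ := (h1.and h2).exists
  exact ⟨u, h4.1.le, h4.2, h3⟩

theorem main (hT2 : S_T2.{u}) (hAC : S_ACTC.{u}) (hZT : S_ZT.{u}) (hLAU : S_LAU.{u})
    (hSK : S_SK.{u}) : S_IMG.{u} := by
  intro K _ _ _ g a t ht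
  obtain ⟨B, hB⟩ := hLAU K g a
  obtain ⟨u, hu0, hut, hu⟩ := exu B ht
  obtain ⟨hpf, c, κ, e, hκ, he, hgn⟩ := hB u t hu0 hut hu
  have hsk := hSK K g a c u t κ e hu0 hut hκ he hpf hgn
  have hpos : 0 < κ * t ^ e := mul_pos hκ (zpow_pos ht e)
  refine ⟨c, κ * t ^ e, hpos, ?_⟩
  have : T2Space (P1B K) := (hT2 K).2.2.1
  have hcont := (hZT K).2.1
  -- the left hand side
  have h1 : Tendsto (fun t' => g.act (zt a t')) (𝓝[<] t) (𝓝 (g.act (zt a t))) := by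
    refine ((hAC K g).tendsto _).comp ?_
    exact ((hcont a).continuousAt (Ioi_mem_nhds ht)).tendsto.mono_left nhdsWithin_le_nhds
  have h2 : Tendsto (fun t' : ℝ => zt c (κ * t' ^ e)) (𝓝[<] t) (𝓝 (zt c (κ * t ^ e))) := by
    have h3 : Tendsto (fun t' : ℝ => κ * t' ^ e) (𝓝[<] t) (𝓝 (κ * t ^ e)) := by
      refine Tendsto.mono_left ?_ nhdsWithin_le_nhds
      exact (continuousAt_zpow₀ t e (Or.inl ht.ne')).tendsto.const_mul κ
    exact ((hcont c).continuousAt (Ioi_mem_nhds hpos)).tendsto.comp h3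
  have h4 : (fun t' => g.act (zt a t')) =ᶠ[𝓝[<] t] (fun t' : ℝ => zt c (κ * t' ^ e)) := by
    filter_upwards [Ioo_mem_nhdsLT hut] with t' ht'
    exact (hsk t' ht'.1 ht'.2).1
  exact tendsto_nhds_unique h1 (h2.congr' h4.symm)

end Pool.Agent.W377.BE.Img
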